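import Mathlib

/-!
# Every integer polynomial is the determinant of a matrix with entries `0`, `1` and variables
-/

set_option autoImplicit false

namespace Pool.Agent.DF2cf

open Matrix

variable {R : Type} [CommRing R]

/-- `f` is an entry of the inverse of a matrix of determinant one with entries in `S`. -/
def DF_Rep (S : Set R) (f : R) : Prop :=
  ∃ (ι : Type) (_ : Fintype ι) (_ : DecidableEq ι) (A B : Matrix ι ι R), A * B = 1 ∧ A.det = 1 ∧
    (∀ i j, A i j ∈ S) ∧ ∃ i j, B i j = f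

theorem DF_block {ι κ : Type} [Fintype ι] [DecidableEq ι] [Fintype κ] [DecidableEq κ] {S : Set R}
    (h0 : (0 : R) ∈ S)
    {A1 B1 : Matrix ι ι R} {A2 B2 : Matrix κ κ R} (h1 : A1 * B1 = 1) (h2 : A2 * B2 = 1)
    (d1 : A1.det = 1) (d2 : A2.det = 1) (s1 : ∀ i j, A1 i j ∈ S) (s2 : ∀ i j, A2 i j ∈ S)
    (C : Matrix ι κ R) (sC : ∀ i j, C i j ∈ S) :
    fromBlocks A1 C 0 A2 * fromBlocks B1 (-(B1 * C * B2)) 0 B2 = 1 ∧
      (fromBlocks A1 C 0 A2).det = 1 ∧ ∀ i j, fromBlocks A1 C 0 A2 i j ∈ S := by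
  refine ⟨?_, ?_, ?_⟩
  · rw [fromBlocks_multiply, h1, h2]
    have e1 : A1 * -(B1 * C * B2) + C * B2 = 0 := by
      rw [Matrix.mul_neg, ← Matrix.mul_assoc, ← Matrix.mul_assoc, h1, Matrix.one_mul,
        neg_add_cancel]
    rw [e1, Matrix.mul_zero, Matrix.mul_zero, Matrix.zero_mul, Matrix.zero_mul, add_zero, zero_add,
      zero_add, fromBlocks_one]
  · rw [det_fromBlocks_zero₂₁, d1, d2, one_mul]
  · rintro (i | i) (j | j)
    · exact s1 i j
    · exact sC i j
    · exact h0
    · exact s2 i j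

theorem DF_one {S : Set R} (h1 : (1 : R) ∈ S) : DF_Rep S 1 := by
  refine ⟨Unit, inferInstance, inferInstance, 1, 1, mul_one 1, det_one, fun i j => ?_, (), (), ?_⟩
  · rw [Subsingleton.elim i j, one_apply_eq]
    exact h1
  · rw [one_apply_eq]

theorem DF_neg_mul {S : Set R} (h0 : (0 : R) ∈ S) (h1 : (1 : R) ∈ S) {f g : R} (hf : DF_Rep S f)
    (hg : DF_Rep S g) : DF_Rep S (-(f * g)) := by
  obtain ⟨ι, i1, i2, A1, B1, hA1, d1, s1, i, j, hij⟩ := hf
  obtain ⟨κ, k1, k2, A2, B2, hA2, d2, s2, k, l, hkl⟩ := hg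
  obtain ⟨h3, h4, h5⟩ := DF_block h0 hA1 hA2 d1 d2 s1 s2 (Matrix.single j k 1) (fun a b => by
    rw [Matrix.single_apply]
    split_ifs
    · exact h1
    · exact h0)
  refine ⟨ι ⊕ κ, inferInstance, inferInstance, _, _, h3, h4, h5, Sum.inl i, Sum.inr l, ?_⟩
  rw [fromBlocks_apply₁₂, Matrix.neg_apply, Matrix.mul_assoc, ← hij, ← hkl]
  congr 1
  rw [Matrix.mul_apply]
  rw [Finset.sum_eq_single j]
  · congr 1
    rw [Matrix.mul_apply, Finset.sum_eq_single k]
    · rw [Matrix.single_apply_same, one_mul]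
    · intro b _ hb
      rw [Matrix.single_apply_of_col_ne _ _ hb.symm, zero_mul]
    · intro h
      exact absurd (Finset.mem_univ _) h
  · intro b _ hb
    have : (Matrix.single j k (1 : R) * B2) b l = 0 := by
      rw [Matrix.mul_apply]
      refine Finset.sum_eq_zero fun c _ => ?_
      rw [Matrix.single_apply_of_row_ne hb.symm, zero_mul]
    rw [this, mul_zero]
  · intro h
    exact absurd (Finset.mem_univ _) h

theorem DF_mul {S : Set R} (h0 : (0 : R) ∈ S) (h1 : (1 : R) ∈ S) {f g : R} (hf : DF_Rep S f)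
    (hg : DF_Rep S g) : DF_Rep S (f * g) := by
  have h := DF_neg_mul h0 h1 (DF_neg_mul h0 h1 hf hg) (DF_one h1)
  rwa [mul_one, neg_neg] at h

/-- Linear combinations with coefficients `0`, `1` on both sides. -/
theorem DF_border {S : Set R} (h0 : (0 : R) ∈ S) (h1 : (1 : R) ∈ S) {ι : Type} [Fintype ι]
    [DecidableEq ι] {A B : Matrix ι ι R} (hA : A * B = 1) (d : A.det = 1) (s : ∀ i j, A i j ∈ S)
    (u v : ι → R) (hu : ∀ i, u i ∈ S) (hv : ∀ i, v i ∈ S) :
    DF_Rep S (∑ i, ∑ j, u i * B i j * v j) := by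
  have hone : (1 : Matrix Unit Unit R) * 1 = 1 := mul_one 1
  have hone' : ∀ i j : Unit, (1 : Matrix Unit Unit R) i j ∈ S := fun i j => by
    rw [Subsingleton.elim i j, one_apply_eq]
    exact h1
  obtain ⟨h3, h4, h5⟩ := DF_block h0 hone hA det_one d hone' s (Matrix.of fun _ i => u i)
    (fun a b => hu b)
  obtain ⟨h6, h7, h8⟩ := DF_block h0 h3 hone h4 det_one h5 hone'
    (Matrix.of fun (i : Unit ⊕ ι) (_ : Unit) => Sum.elim (fun _ => (0 : R)) v i) (fun a b => by
      rcases a with a | a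
      · exact h0
      · exact hv a)
  refine ⟨(Unit ⊕ ι) ⊕ Unit, inferInstance, inferInstance, _, _, h6, h7, h8,
    Sum.inl (Sum.inl ()), Sum.inr (), ?_⟩
  rw [fromBlocks_apply₁₂, Matrix.neg_apply, Matrix.mul_one, Matrix.mul_apply, Fintype.sum_sum_type]
  simp only [fromBlocks_apply₁₁, fromBlocks_apply₁₂, of_apply, Sum.elim_inl, Sum.elim_inr, mul_zero,
    Finset.sum_const_zero, zero_add, Matrix.neg_apply, Matrix.one_mul, Matrix.mul_apply, neg_mul,
    Finset.sum_neg_distrib, neg_neg, Finset.sum_mul]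
  rw [Finset.sum_comm]

theorem DF_add {S : Set R} (h0 : (0 : R) ∈ S) (h1 : (1 : R) ∈ S) {f g : R} (hf : DF_Rep S f)
    (hg : DF_Rep S g) : DF_Rep S (f + g) := by
  obtain ⟨ι, i1, i2, A1, B1, hA1, d1, s1, i, j, hij⟩ := hf
  obtain ⟨κ, k1, k2, A2, B2, hA2, d2, s2, k, l, hkl⟩ := hg
  obtain ⟨h3, h4, h5⟩ := DF_block h0 hA1 hA2 d1 d2 s1 s2 0 (fun a b => h0)
  have h6 := DF_border h0 h1 h3 h4 h5
    (Sum.elim (fun a => if a = i then 1 else 0) fun a => if a = k then 1 else 0)
    (Sum.elim (fun a => if a = j then 1 else 0) fun a => if a = l then 1 else 0)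
    (by
      rintro (a | a)
      · rw [Sum.elim_inl]
        split_ifs
        · exact h1
        · exact h0
      · rw [Sum.elim_inr]
        split_ifs
        · exact h1
        · exact h0)
    (by
      rintro (a | a)
      · rw [Sum.elim_inl]
        split_ifs
        · exact h1
        · exact h0
      · rw [Sum.elim_inr]
        split_ifs
        · exact h1
        · exact h0)
  have h7 : f + g = ∑ a : ι ⊕ κ, ∑ b : ι ⊕ κ,
      Sum.elim (fun a => if a = i then (1 : R) else 0) (fun a => if a = k then 1 else 0) a *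
        fromBlocks B1 (-(B1 * (0 : Matrix ι κ R) * B2)) 0 B2 a b *
        Sum.elim (fun a => if a = j then (1 : R) else 0) (fun a => if a = l then 1 else 0) b := by
    rw [Matrix.mul_zero, Matrix.zero_mul, neg_zero]
    simp [Fintype.sum_sum_type, hij, hkl]
  rw [h7]
  exact h6

theorem DF_neg_one {S : Set R} (h0 : (0 : R) ∈ S) (h1 : (1 : R) ∈ S) : DF_Rep S (-1) := by
  have h := DF_neg_mul h0 h1 (DF_one h1) (DF_one h1)
  rwa [mul_one] at h

theorem DF_mem {S : Set R} (h0 : (0 : R) ∈ S) (h1 : (1 : R) ∈ S) {x : R} (hx : x ∈ S) :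
    DF_Rep S x := by
  have hone : (1 : Matrix Unit Unit R) * 1 = 1 := mul_one 1
  have hone' : ∀ i j : Unit, (1 : Matrix Unit Unit R) i j ∈ S := fun i j => by
    rw [Subsingleton.elim i j, one_apply_eq]
    exact h1
  have h := DF_border h0 h1 hone det_one hone' (fun _ => x) (fun _ => 1) (fun _ => hx) fun _ => h1
  simpa using h

theorem DF_int {S : Set R} (h0 : (0 : R) ∈ S) (h1 : (1 : R) ∈ S) (z : ℤ) : DF_Rep S (z : R) := by
  induction z using Int.induction_on with
  | zero =>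
    rw [Int.cast_zero]
    exact DF_mem h0 h1 h0
  | succ i ih =>
    push_cast
    push_cast at ih
    exact DF_add h0 h1 ih (DF_one h1)
  | pred i ih =>
    push_cast
    push_cast at ih
    rw [sub_eq_add_neg]
    exact DF_add h0 h1 ih (DF_neg_one h0 h1)

/-- The elements of the subring generated by `S` are determinants of matrices with entries in `S`. -/
theorem DF_det {S : Set R} (h0 : (0 : R) ∈ S) (h1 : (1 : R) ∈ S) {f : R} (hf : DF_Rep S f) :
    ∃ (N : ℕ) (M : Matrix (Fin N) (Fin N) R), (∀ i j, M i j ∈ S) ∧ M.det = f := by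
  have hf' : DF_Rep S (-f) := by
    have h := DF_neg_mul h0 h1 hf (DF_one h1)
    rwa [mul_one] at h
  obtain ⟨ι, i1, i2, A, B, hA, d, s, i, j, hij⟩ := hf'
  let _ : Invertible A := ⟨B, mul_eq_one_comm.1 hA, hA⟩
  have hinv : ⅟A = B := invOf_eq_right_inv hA
  let M : Matrix (ι ⊕ Unit) (ι ⊕ Unit) R :=
    fromBlocks A (Matrix.of fun a _ => if a = j then 1 else 0)
      (Matrix.of fun _ b => if b = i then 1 else 0) 0
  have hM : M.det = f := by
    show (fromBlocks A (Matrix.of fun a _ => if a = j then (1 : R) else 0)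
      (Matrix.of fun _ b => if b = i then (1 : R) else 0) (0 : Matrix Unit Unit R)).det = f
    rw [det_fromBlocks₁₁, d, one_mul, hinv, zero_sub, det_unique, Matrix.neg_apply, Matrix.mul_apply]
    simp only [Matrix.mul_apply, of_apply, ite_mul, one_mul, zero_mul, Finset.sum_ite_eq',
      Finset.mem_univ, if_true, mul_ite, mul_one, mul_zero]
    rw [hij, neg_neg]
  let φ := Fintype.equivFin (ι ⊕ Unit)
  refine ⟨Fintype.card (ι ⊕ Unit), M.submatrix φ.symm φ.symm, fun a b => ?_, ?_⟩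
  · rw [submatrix_apply]
    generalize φ.symm a = a'
    generalize φ.symm b = b'
    rcases a' with a' | a' <;> rcases b' with b' | b'
    · exact s a' b'
    · show (if a' = j then (1 : R) else 0) ∈ S
      split_ifs
      · exact h1
      · exact h0
    · show (if b' = i then (1 : R) else 0) ∈ S
      split_ifs
      · exact h1
      · exact h0
    · exact h0
  · rw [det_submatrix_equiv_self, hM]

/-- Every polynomial with integer coefficients is the determinant of a matrix all of whose entries are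
`0`, `1` or variables. -/
theorem exists_det {n : ℕ} (f : MvPolynomial (Fin n) ℤ) :
    ∃ (N : ℕ) (M : Matrix (Fin N) (Fin N) (MvPolynomial (Fin n) ℤ)),
      (∀ i j, M i j = 0 ∨ M i j = 1 ∨ ∃ k, M i j = MvPolynomial.X k) ∧ M.det = f := by
  let S : Set (MvPolynomial (Fin n) ℤ) := {p | p = 0 ∨ p = 1 ∨ ∃ k, p = MvPolynomial.X k}
  have h0 : (0 : MvPolynomial (Fin n) ℤ) ∈ S := Or.inl rfl
  have h1 : (1 : MvPolynomial (Fin n) ℤ) ∈ S := Or.inr (Or.inl rfl)
  refine DF_det h0 h1 ?_
  induction f using MvPolynomial.induction_on with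
  | C a =>
    have := DF_int h0 h1 a
    simpa using this
  | add p q hp hq => exact DF_add h0 h1 hp hq
  | mul_X p k hp => exact DF_mul h0 h1 hp (DF_mem h0 h1 (Or.inr (Or.inr ⟨k, rfl⟩)))

/-- The same for the values: the entries of the matrix are the coordinates of the vector
`(0, 1, u_1, …, u_n)`. -/
theorem exists_det_eval {n : ℕ} (f : MvPolynomial (Fin n) ℤ) :
    ∃ (N : ℕ) (c : Fin N → Fin N → Fin (n + 2)), ∀ u : Fin n → ℝ,
      (Matrix.of fun i j => (Fin.cons 0 (Fin.cons 1 u) : Fin (n + 2) → ℝ) (c i j)).det =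
        MvPolynomial.aeval u f := by
  obtain ⟨N, M, hM, hdet⟩ := exists_det f
  have h : ∀ i j, ∃ k : Fin (n + 2), ∀ u : Fin n → ℝ,
      (Fin.cons 0 (Fin.cons 1 u) : Fin (n + 2) → ℝ) k = MvPolynomial.aeval u (M i j) := by
    intro i j
    rcases hM i j with h | h | ⟨k, h⟩
    · refine ⟨0, fun u => ?_⟩
      rw [h, map_zero, Fin.cons_zero]
    · refine ⟨Fin.succ 0, fun u => ?_⟩
      rw [h, map_one, Fin.cons_succ, Fin.cons_zero]
    · refine ⟨k.succ.succ, fun u => ?_⟩
      rw [h, MvPolynomial.aeval_X, Fin.cons_succ, Fin.cons_succ]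
  choose c hc using h
  refine ⟨N, c, fun u => ?_⟩
  rw [← hdet, AlgHom.map_det]
  congr 1
  ext i j
  exact hc i j u

end Pool.Agent.DF2cf
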